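import Pool.Agent.Helper78.ZM.Stmts

/-!
Project ZM (MP_ccc3c9_an), module ZM-11: from smooth test functions to continuous ones.
-/

open MeasureTheory Filter Topology Set
open scoped ContDiff Real Manifold

namespace Pool.Agent.Helper71.ZM

open Pool.Agent.Helper78.ZM

/-- smooth cutoff: `κ = 1` near the compact set `K`, supported in a compact subset of `V` -/
theorem exists_cutoff {n : ℕ} {K V : Set (Cn n)} (hK : IsCompact K) (hV : IsOpen V)
    (hKV : K ⊆ V) : ∃ κ : Cn n → ℝ, ContDiff ℝ ∞ κ ∧ HasCompactSupport κ ∧ tsupport κ ⊆ V ∧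
      (∀ x, 0 ≤ κ x) ∧ (∀ x, κ x ≤ 1) ∧ ∀ᶠ x in 𝓝ˢ K, κ x = 1 := by
  obtain ⟨L, hL, hKL, hLV⟩ := exists_compact_between hK hV hKV
  obtain ⟨f, hf1, hf0, hf⟩ := exists_contMDiffMap_one_nhds_of_subset_interior (n := ⊤)
    (𝓘(ℝ, Cn n)) hK.isClosed hKL
  have hsub : tsupport f ⊆ L := by
    refine closure_minimal ?_ hL.isClosed
    intro x hx
    by_contra hxL
    exact hx (hf0 x hxL)
  refine ⟨f, f.contMDiff.contDiff, ?_, hsub.trans hLV, fun x => (hf x).1, fun x => (hf x).2, hf1⟩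
  exact hL.of_isClosed_subset (isClosed_tsupport _) hsub

/-- smooth approximation, constant near `0` -/
theorem exists_approx {n : ℕ} {χ : Cn n → ℝ} (hχ : Continuous χ) {ε : ℝ} (hε : 0 < ε) :
    ∃ g : Cn n → ℝ, ContDiff ℝ ∞ g ∧ (∀ x, |g x - χ x| ≤ ε) ∧ g 0 = χ 0 ∧
      ∀ᶠ y in 𝓝 (0 : Cn n), g y = g 0 := by
  obtain ⟨δ, hδ, hδχ⟩ := Metric.continuousAt_iff.1 (hχ.continuousAt (x := (0 : Cn n))) ε hε
  classical
  let t : Cn n → Set ℝ := fun x =>
    if x ∈ Metric.closedBall (0 : Cn n) (δ / 2) then {χ 0} else Metric.ball (χ x) ε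
  have ht : ∀ x, Convex ℝ (t x) := by
    intro x
    by_cases hx : x ∈ Metric.closedBall (0 : Cn n) (δ / 2)
    · simp only [t, if_pos hx]
      exact convex_singleton _
    · simp only [t, if_neg hx]
      exact convex_ball _ _
  have hloc : ∀ x : Cn n, ∃ c : ℝ, ∀ᶠ y in 𝓝 x, c ∈ t y := by
    intro x
    by_cases hx : x ∈ Metric.closedBall (0 : Cn n) (δ / 2)
    · refine ⟨χ 0, ?_⟩
      have hxb : x ∈ Metric.ball (0 : Cn n) δ := by
        have := Metric.mem_closedBall.1 hx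
        exact Metric.mem_ball.2 (by linarith)
      filter_upwards [Metric.isOpen_ball.mem_nhds hxb] with y hy
      by_cases hy' : y ∈ Metric.closedBall (0 : Cn n) (δ / 2)
      · simp only [t, if_pos hy']
        exact mem_singleton _
      · simp only [t, if_neg hy']
        rw [Metric.mem_ball, dist_comm]
        exact hδχ (Metric.mem_ball.1 hy)
    · refine ⟨χ x, ?_⟩
      have h1 : ∀ᶠ y in 𝓝 x, y ∉ Metric.closedBall (0 : Cn n) (δ / 2) :=
        (Metric.isClosed_closedBall.isOpen_compl).mem_nhds hx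
      have h2 : ∀ᶠ y in 𝓝 x, dist (χ y) (χ x) < ε :=
        (hχ.continuousAt (x := x)).eventually (Metric.ball_mem_nhds _ hε)
      filter_upwards [h1, h2] with y hy1 hy2
      simp only [t, if_neg hy1]
      rw [Metric.mem_ball, dist_comm]
      exact hy2
  obtain ⟨g, hg⟩ := exists_contMDiffMap_forall_mem_convex_of_local_const (n := ⊤)
    (𝓘(ℝ, Cn n)) ht hloc
  have h0 : ∀ x ∈ Metric.closedBall (0 : Cn n) (δ / 2), g x = χ 0 := by
    intro x hx
    have := hg x
    simp only [t, if_pos hx] at this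
    exact this
  have h00 : g 0 = χ 0 := h0 0 (Metric.mem_closedBall_self (by linarith))
  refine ⟨g, g.contMDiff.contDiff, ?_, h00, ?_⟩
  · intro x
    by_cases hx : x ∈ Metric.closedBall (0 : Cn n) (δ / 2)
    · rw [h0 x hx]
      have hxb : dist x 0 < δ := by
        have := Metric.mem_closedBall.1 hx
        linarith
      have := hδχ hxb
      rw [Real.dist_eq, abs_sub_comm] at this
      exact this.le
    · have := hg x
      simp only [t, if_neg hx] at this
      rw [Metric.mem_ball, Real.dist_eq] at this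
      exact this.le
  · filter_upwards [Metric.closedBall_mem_nhds (0 : Cn n) (by linarith : 0 < δ / 2)] with y hy
    rw [h0 y hy, h00]

theorem integrable_mul {n : ℕ} {V : Set (Cn n)} {ρ χ : Cn n → ℝ} (hV : IsOpen V)
    (hρ : ContinuousOn ρ V) (hχ : Continuous χ) (hc : HasCompactSupport χ)
    (hs : tsupport χ ⊆ V) : Integrable (fun x => χ x * ρ x) := by
  have hcont : Continuous (fun x => χ x * ρ x) := by
    rw [continuous_iff_continuousAt]
    intro x
    by_cases hx : x ∈ tsupport χ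
    · exact hχ.continuousAt.mul (hρ.continuousAt (hV.mem_nhds (hs hx)))
    · have h0 : (fun _ : Cn n => (0 : ℝ)) =ᶠ[𝓝 x] fun y => χ y * ρ y := by
        filter_upwards [(isClosed_tsupport χ).isOpen_compl.mem_nhds hx] with y hy
        rw [image_eq_zero_of_notMem_tsupport hy, zero_mul]
      exact continuousAt_const.congr h0
  exact hcont.integrable_of_hasCompactSupport hc.mul_right

theorem z11 : Z11Stmt := by
  intro n V ρ m0 hV hm0 hρ hρ0 H χ hχ hc hs
  set K := tsupport χ with hK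
  -- the open set
  obtain ⟨V', hV', hKV', hV'V, hV'0⟩ : ∃ V' : Set (Cn n), IsOpen V' ∧ K ⊆ V' ∧ V' ⊆ V ∧
      ((0 : Cn n) ∉ K → (0 : Cn n) ∉ V') := by
    by_cases h0 : (0 : Cn n) ∈ K
    · exact ⟨V, hV, hs, subset_rfl, fun h => absurd h0 h⟩
    · refine ⟨V \ {0}, hV.sdiff isClosed_singleton, fun x hx => ⟨hs hx, ?_⟩, sdiff_subset,
        fun _ h => h.2 rfl⟩
      rintro rfl
      exact h0 hx
  obtain ⟨κ, hκ, hκc, hκs, hκ0, hκ1, hκK⟩ := exists_cutoff (show IsCompact K from hc) hV' hKV'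
  have hκ00 : ∀ᶠ y in 𝓝 (0 : Cn n), κ y = κ 0 := by
    by_cases h0 : (0 : Cn n) ∈ K
    · have h1 : ∀ᶠ y in 𝓝 (0 : Cn n), κ y = 1 := hκK.filter_mono (nhds_le_nhdsSet h0)
      have h2 : κ 0 = 1 := h1.self_of_nhds
      filter_upwards [h1] with y hy
      rw [hy, h2]
    · have h3 : (0 : Cn n) ∉ tsupport κ := fun h => hV'0 h0 (hκs h)
      filter_upwards [(isClosed_tsupport κ).isOpen_compl.mem_nhds h3] with y hy
      rw [image_eq_zero_of_notMem_tsupport hy, image_eq_zero_of_notMem_tsupport h3]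
  have hκV : tsupport κ ⊆ V := hκs.trans hV'V
  have hκlim := H κ hκ hκc hκV hκ00
  have hκb : ∀ᶠ j in atTop, ∫ x, κ x * ρ j x < m0 + 1 := by
    refine hκlim.eventually (gt_mem_nhds ?_)
    have : m0 * κ 0 ≤ m0 * 1 := mul_le_mul_of_nonneg_left (hκ1 0) hm0
    linarith
  rw [Metric.tendsto_atTop]
  intro η hη
  have hεpos : 0 < η / (2 * (m0 + 1)) := by positivity
  obtain ⟨g, hg, hgχ, hg0, hgc⟩ := exists_approx hχ hεpos
  -- the modified test function
  have hχ's : tsupport (fun x => κ x * g x) ⊆ tsupport κ :=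
    closure_mono (fun x hx => by
      intro h
      apply hx
      show κ x * g x = 0
      rw [h, zero_mul])
  have hχ'c : HasCompactSupport (fun x => κ x * g x) := hκc.mul_right
  have hχ'lim := H (fun x => κ x * g x) (hκ.mul hg) hχ'c (hχ's.trans hκV) (by
    filter_upwards [hκ00, hgc] with y hy1 hy2
    rw [hy1, hy2])
  have hχ'0 : κ 0 * g 0 = χ 0 := by
    rw [hg0]
    by_cases h0 : (0 : Cn n) ∈ K
    · have h1 : ∀ᶠ y in 𝓝 (0 : Cn n), κ y = 1 := hκK.filter_mono (nhds_le_nhdsSet h0)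
      rw [h1.self_of_nhds, one_mul]
    · rw [image_eq_zero_of_notMem_tsupport h0, mul_zero]
  have hdiff : ∀ x, |χ x - κ x * g x| ≤ η / (2 * (m0 + 1)) * κ x := by
    intro x
    by_cases hx : x ∈ K
    · have h1 : κ x = 1 := hκK.self_of_nhdsSet x hx
      rw [h1, one_mul, mul_one, abs_sub_comm]
      exact hgχ x
    · have h1 : χ x = 0 := image_eq_zero_of_notMem_tsupport hx
      have h2 := hgχ x
      rw [h1, sub_zero] at h2
      rw [h1, zero_sub, abs_neg, abs_mul, abs_of_nonneg (hκ0 x), mul_comm]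
      exact mul_le_mul_of_nonneg_right h2 (hκ0 x)
  obtain ⟨N1, hN1⟩ := eventually_atTop.1 hκb
  obtain ⟨N2, hN2⟩ := Metric.tendsto_atTop.1 hχ'lim (η / 2) (by positivity)
  refine ⟨max N1 N2, fun j hj => ?_⟩
  have hj1 := hN1 j ((le_max_left _ _).trans hj)
  have hj2 := hN2 j ((le_max_right _ _).trans hj)
  simp only [hχ'0] at hj2
  have hI1 : Integrable (fun x => χ x * ρ j x) := integrable_mul hV (hρ j) hχ hc hs
  have hI2 : Integrable (fun x => κ x * ρ j x) :=
    integrable_mul hV (hρ j) hκ.continuous hκc hκV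
  have hI3 : Integrable (fun x => (κ x * g x) * ρ j x) :=
    integrable_mul hV (hρ j) (hκ.continuous.mul hg.continuous) hχ'c (hχ's.trans hκV)
  have hkey : |(∫ x, χ x * ρ j x) - ∫ x, (κ x * g x) * ρ j x| ≤
      η / (2 * (m0 + 1)) * ∫ x, κ x * ρ j x := by
    rw [← integral_sub hI1 hI3, ← integral_const_mul, ← Real.norm_eq_abs]
    refine norm_integral_le_of_norm_le (hI2.const_mul _) (ae_of_all _ fun x => ?_)
    rw [Real.norm_eq_abs, ← sub_mul, abs_mul]
    by_cases hx : x ∈ V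
    · rw [abs_of_nonneg (hρ0 j x hx), ← mul_assoc]
      exact mul_le_mul_of_nonneg_right (hdiff x) (hρ0 j x hx)
    · have h1 : κ x = 0 := image_eq_zero_of_notMem_tsupport (fun h => hx (hκV h))
      have h2 := hdiff x
      rw [h1, mul_zero] at h2
      have h3 : |χ x - 0 * g x| = 0 := le_antisymm h2 (abs_nonneg _)
      rw [h1, h3]
      simp
  rw [Real.dist_eq] at hj2 ⊢
  have hbound : η / (2 * (m0 + 1)) * ∫ x, κ x * ρ j x ≤ η / 2 := by
    have h1 : η / (2 * (m0 + 1)) * ∫ x, κ x * ρ j x ≤ η / (2 * (m0 + 1)) * (m0 + 1) :=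
      mul_le_mul_of_nonneg_left hj1.le hεpos.le
    have h2 : η / (2 * (m0 + 1)) * (m0 + 1) = η / 2 := by
      have : m0 + 1 ≠ 0 := by positivity
      field_simp
    linarith
  calc |(∫ x, χ x * ρ j x) - m0 * χ 0|
      = |((∫ x, χ x * ρ j x) - ∫ x, (κ x * g x) * ρ j x) +
          ((∫ x, (κ x * g x) * ρ j x) - m0 * χ 0)| := by ring_nf
    _ ≤ |(∫ x, χ x * ρ j x) - ∫ x, (κ x * g x) * ρ j x| +
          |(∫ x, (κ x * g x) * ρ j x) - m0 * χ 0| := abs_add_le _ _
    _ < η / 2 + η / 2 := by linarith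
    _ = η := by ring

end Pool.Agent.Helper71.ZM
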